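import Pool.Agent.MWV.Stmts

/-!
# Row END of block MWV: words may be added at the ends of the main block
-/

set_option autoImplicit false

namespace Pool.Agent.MWV.H19

open Pool.Agent.Helper14_MV Pool.Agent.Helper2_MV Pool.Agent.MWV

theorem flatMap_self {f : ℕ → List ℕ} : ∀ {l : List ℕ}, (∀ a ∈ l, f a = [a]) → l.flatMap f = l
  | [], _ => rfl
  | a :: l, h => by
    rw [List.flatMap_cons, h a List.mem_cons_self,
      flatMap_self (fun b hb => h b (List.mem_cons_of_mem _ hb))]
    rfl

theorem endS : EndStmt := by
  intro N S hS P Q L L' u v hL h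
  obtain ⟨f, hf⟩ : ∃ f : ℕ → List ℕ, f = fun a => if a = 2 then 2 :: u else
    if a = 5 then v ++ [5] else [a] := ⟨_, rfl⟩
  have f2 : f 2 = 2 :: u := by rw [hf]; rfl
  have f5 : f 5 = v ++ [5] := by rw [hf]; rfl
  have fo : ∀ a, a ≠ 2 → a ≠ 5 → f a = [a] := by
    intro a h1 h2
    rw [hf]
    show (if a = 2 then 2 :: u else if a = 5 then v ++ [5] else [a]) = [a]
    rw [if_neg h1, if_neg h2]
  have hpl : (pl P).flatMap f = pl P := by
    apply flatMap_self
    intro a ha
    unfold pl at ha
    obtain ⟨e, -, he⟩ := List.mem_flatMap.mp ha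
    simp only [List.mem_cons, List.not_mem_nil, or_false] at he
    apply fo
    · omega
    · omega
  have hpr : (pr Q).flatMap f = pr Q := by
    apply flatMap_self
    intro a ha
    unfold pr at ha
    obtain ⟨e, -, he⟩ := List.mem_flatMap.mp ha
    simp only [List.mem_cons, List.not_mem_nil, or_false] at he
    apply fo
    · omega
    · omega
  have hW : ∀ M : List ℕ, (∀ a ∈ M, a ≠ 2 ∧ a ≠ 5) →
      (W P Q M).flatMap f = W P Q (u ++ (M ++ v)) := by
    intro M hM
    have hMf : M.flatMap f = M := flatMap_self (fun a ha => fo a (hM a ha).1 (hM a ha).2)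
    unfold W
    rw [List.flatMap_append, List.flatMap_cons, List.flatMap_append, List.flatMap_cons, hpl, hpr,
      hMf, f2, f5]
    simp only [List.append_assoc, List.cons_append, List.nil_append]
  have h1 := hS.sub f (by
    intro b hb a ha
    rw [fo b (by omega) (by omega), List.mem_singleton] at ha
    rw [ha]
    exact hb) h
  rw [hW L (fun a ha => hL a (List.mem_append_left _ ha)),
    hW L' (fun a ha => hL a (List.mem_append_right _ ha))] at h1
  exact h1

end Pool.Agent.MWV.H19
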